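import Pool.Agent.Y566.MO.Stm

/-!
Project MO (MP_5607ba_lc): an equivariant sign relation on the free group.
-/

set_option autoImplicit false

namespace Pool.Agent.Y429.MO.FS

open Pool.Agent.Y566.MO
open FreeGroup

abbrev Lt : Type := ℕ × Bool

def iv (x : Lt) : Lt := (x.1, !x.2)
def ep (x : Lt) : ℤ := if x.1 % 2 = 0 then 1 else -1
def ee (x : Lt) : ℤ := if x.2 then 1 else -ep x
def cd (x : Lt) : ℕ := 2 * x.1 + (if x.2 then 1 else 0)
def tau (p q : Lt) : ℤ := if cd p < cd q then 1 else -1
def sig : List Lt → ℤ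
  | [] => 0
  | [x] => ee x
  | x :: y :: l => ee x + ep x * (tau (iv x) y + sig (y :: l))
def chL (l : List Lt) : ℤ := (l.map ep).prod

theorem iv_iv (x : Lt) : iv (iv x) = x := by simp [iv]

theorem ep_iv (x : Lt) : ep (iv x) = ep x := rfl

theorem ep_or (x : Lt) : ep x = 1 ∨ ep x = -1 := by
  unfold ep; split_ifs <;> simp

theorem ee_iv (x : Lt) : ee (iv x) = - ep x * ee x := by
  obtain ⟨i, b⟩ := x
  cases b <;> simp only [ee, iv, ep] <;> split_ifs <;> simp_all

theorem ee_or (x : Lt) : ee x = 1 ∨ ee x = -1 := by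
  unfold ee
  rcases ep_or x with h | h <;> split_ifs <;> simp [h]

theorem cd_inj {x y : Lt} (h : cd x = cd y) : x = y := by
  obtain ⟨i, b⟩ := x
  obtain ⟨j, c⟩ := y
  unfold cd at h
  cases b <;> cases c <;> simp at h ⊢ <;> omega

theorem tau_or (x y : Lt) : tau x y = 1 ∨ tau x y = -1 := by
  unfold tau; split_ifs <;> simp

theorem tau_anti {x y : Lt} (h : x ≠ y) : tau x y = - tau y x := by
  have : cd x ≠ cd y := fun h' => h (cd_inj h')
  unfold tau
  split_ifs <;> first | rfl | (exfalso; omega)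

theorem tau_trans {x y z : Lt} (h1 : x ≠ y) (h2 : y ≠ z) (h3 : x ≠ z) :
    ¬ (tau x y = 1 ∧ tau y z = 1 ∧ tau x z = -1) ∧ ¬ (tau x y = -1 ∧ tau y z = -1 ∧ tau x z = 1) := by
  have e1 : cd x ≠ cd y := fun h' => h1 (cd_inj h')
  have e2 : cd y ≠ cd z := fun h' => h2 (cd_inj h')
  have e3 : cd x ≠ cd z := fun h' => h3 (cd_inj h')
  unfold tau
  split_ifs <;> norm_num <;> omega

theorem chL_or (l : List Lt) : chL l = 1 ∨ chL l = -1 := by
  induction l with
  | nil => simp [chL]
  | cons x l ih =>
    have : chL (x :: l) = ep x * chL l := by simp [chL]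
    rw [this]
    rcases ep_or x with h | h <;> rcases ih with h' | h' <;> simp [h, h']

theorem chL_cons (x : Lt) (l : List Lt) : chL (x :: l) = ep x * chL l := by simp [chL]

theorem chL_append (l l' : List Lt) : chL (l ++ l') = chL l * chL l' := by simp [chL]

theorem chL_invRev (l : List Lt) : chL (invRev l) = chL l := by
  induction l with
  | nil => rfl
  | cons x l ih =>
    have e : invRev [x] = [iv x] := rfl
    rw [invRev_cons, chL_append, ih, chL_cons, e]
    have : chL [iv x] = ep x := by simp [chL, ep_iv]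
    rw [this]; ring

theorem chi_mk (l : List Lt) : ((chi (mk l) : ℤˣ) : ℤ) = chL l := by
  induction l with
  | nil =>
    have : (mk ([] : List Lt)) = (1 : G) := rfl
    rw [this, _root_.map_one]; simp [chL]
  | cons x l ih =>
    have e : (mk (x :: l) : G) = mk [x] * mk l := by rw [mul_mk]; rfl
    rw [e, _root_.map_mul, Units.val_mul, ih, chL_cons]
    congr 1
    obtain ⟨i, b⟩ := x
    cases b with
    | true =>
      have : (mk [(i, true)] : G) = FreeGroup.of i := rfl
      rw [this, chi, FreeGroup.lift_apply_of]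
      unfold ep
      split_ifs <;> simp
    | false =>
      have : (mk [(i, false)] : G) = (FreeGroup.of i)⁻¹ := by
        simp [FreeGroup.of, inv_mk, invRev]
      rw [this, _root_.map_inv, chi, FreeGroup.lift_apply_of]
      unfold ep
      split_ifs <;> simp

theorem sig_cc (x y : Lt) (l : List Lt) :
    sig (x :: y :: l) = ee x + ep x * (tau (iv x) y + sig (y :: l)) := by simp only [sig]

theorem sig_odd : ∀ (x : Lt) (l : List Lt), sig (x :: l) % 2 = 1
  | x, [] => by
    simp only [sig]
    rcases ee_or x with h | h <;> rw [h] <;> rfl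
  | x, y :: l => by
    have ih := sig_odd y l
    simp only [sig]
    rcases ee_or x with h | h <;> rcases ep_or x with h' | h' <;>
      rcases tau_or (iv x) y with h'' | h'' <;> rw [h, h', h''] <;> omega

theorem sig_cat (P : List Lt) (z y : Lt) (Q : List Lt) :
    sig (P ++ [z] ++ (y :: Q)) = sig (P ++ [z]) + chL (P ++ [z]) * (tau (iv z) y + sig (y :: Q)) := by
  induction P with
  | nil => simp [sig, chL]
  | cons x P ih =>
    cases P with
    | nil =>
      have e1 : [x] ++ [z] ++ (y :: Q) = x :: z :: y :: Q := rfl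
      have e2 : [x] ++ [z] = [x, z] := rfl
      have e3 : ([] : List Lt) ++ [z] ++ (y :: Q) = z :: y :: Q := rfl
      have e4 : ([] : List Lt) ++ [z] = [z] := rfl
      rw [e3, e4] at ih
      have e5 : chL [x, z] = ep x * chL [z] := chL_cons _ _
      rw [e1, e2, sig_cc x z, ih, sig_cc x z, e5]
      ring
    | cons x' P =>
      have e1 : (x :: x' :: P) ++ [z] ++ (y :: Q) = x :: x' :: (P ++ [z] ++ (y :: Q)) := rfl
      have e2 : (x :: x' :: P) ++ [z] = x :: x' :: (P ++ [z]) := rfl
      have e3 : (x' :: P) ++ [z] ++ (y :: Q) = x' :: (P ++ [z] ++ (y :: Q)) := rfl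
      have e4 : (x' :: P) ++ [z] = x' :: (P ++ [z]) := rfl
      rw [e3, e4] at ih
      rw [e1, e2, sig_cc x x', ih, sig_cc x x', chL_cons x]
      ring

theorem sig_invRev : ∀ (x : Lt) (l : List Lt), IsReduced (x :: l) →
    sig (invRev (x :: l)) = - chL (x :: l) * sig (x :: l)
  | x, [], _ => by
    have e : invRev [x] = [iv x] := rfl
    rw [e]
    simp only [sig, ee_iv, chL_cons]
    simp [chL]
  | x, y :: l, h => by
    rw [isReduced_cons_cons] at h
    have ih := sig_invRev y l h.2
    have e : invRev (x :: y :: l) = invRev l ++ [iv y] ++ (iv x :: []) := by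
      rw [invRev_cons, invRev_cons]; rfl
    have e' : invRev (y :: l) = invRev l ++ [iv y] := by rw [invRev_cons]; rfl
    have hne : iv x ≠ y := by
      intro h'
      have h1 : x.1 = y.1 := by rw [← h']; rfl
      have h2 := h.1 h1
      rw [← h'] at h2
      simp [iv] at h2
    have hchL : chL (invRev (y :: l)) = chL (y :: l) := chL_invRev _
    have e6 : sig [iv x] = ee (iv x) := by simp only [sig]
    rw [e, sig_cat, ← e', ih, iv_iv, hchL, chL_cons x, sig_cc x y, e6, ee_iv, tau_anti hne]
    rcases ep_or x with h' | h' <;> rw [h'] <;> ring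

/-- reducedness of `invRev A ++ B` -/
theorem red_glue {A B : List Lt} (hA : IsReduced A) (hB : IsReduced B)
    (h : ∀ a A' b B', A = a :: A' → B = b :: B' → a ≠ b) : IsReduced (invRev A ++ B) := by
  have hA' : IsReduced (invRev A) := by
    rw [isReduced_iff_reduce_eq, reduce_invRev, hA.reduce_eq]
  cases A with
  | nil => simpa using hB
  | cons a A' =>
    cases B with
    | nil => simpa using hA'
    | cons b B' =>
      have hab := h a A' b B' rfl rfl
      have e : invRev (a :: A') = invRev A' ++ [iv a] := by rw [invRev_cons]; rfl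
      rw [e] at hA' ⊢
      apply IsReduced.append_overlap hA' _ (by simp)
      show IsReduced (iv a :: b :: B')
      rw [isReduced_cons_cons]
      refine ⟨?_, hB⟩
      intro h1
      have h1' : a.1 = b.1 := h1
      have h2 : a.2 ≠ b.2 := fun h3 => hab (Prod.ext h1' h3)
      show (!a.2) = b.2
      revert h2
      cases a.2 <;> cases b.2 <;> simp

theorem red_right {P Q : List Lt} (h : IsReduced (P ++ Q)) : IsReduced Q :=
  (List.isChain_append.1 h).2.1

theorem toWord_glue {m A B : List Lt} (hA : IsReduced (m ++ A)) (hB : IsReduced (m ++ B))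
    (h : ∀ a A' b B', A = a :: A' → B = b :: B' → a ≠ b) :
    ((mk (m ++ A) : G)⁻¹ * mk (m ++ B)).toWord = invRev A ++ B := by
  have hA' : IsReduced A := red_right hA
  have hB' : IsReduced B := red_right hB
  have e : ((mk (m ++ A) : G)⁻¹ * mk (m ++ B)) = mk (invRev A ++ B) := by
    rw [← mul_mk, ← mul_mk, ← mul_mk, ← inv_mk]
    group
  rw [e, toWord_mk, (red_glue hA' hB' h).reduce_eq]

theorem prefix_dec : ∀ L1 L2 : List Lt, ∃ m A B, L1 = m ++ A ∧ L2 = m ++ B ∧
    ∀ a A' b B', A = a :: A' → B = b :: B' → a ≠ b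
  | [], L2 => ⟨[], [], L2, rfl, rfl, by simp⟩
  | x :: L1, [] => ⟨[], x :: L1, [], rfl, rfl, by simp⟩
  | x :: L1, y :: L2 => by
    by_cases hxy : x = y
    · subst hxy
      obtain ⟨m, A, B, h1, h2, h3⟩ := prefix_dec L1 L2
      exact ⟨x :: m, A, B, by rw [h1]; rfl, by rw [h2]; rfl, h3⟩
    · refine ⟨[], x :: L1, y :: L2, rfl, rfl, ?_⟩
      intro a A' b B' h1 h2
      simp only [List.cons.injEq] at h1 h2
      rw [← h1.1, ← h2.1]
      exact hxy

/-- the sign function -/
def S (u v : G) : ℤ := ((chi u : ℤˣ) : ℤ) * sig ((u⁻¹ * v).toWord)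

theorem chi_word (u : G) : ((chi u : ℤˣ) : ℤ) = chL u.toWord := by
  rw [← chi_mk, mk_toWord]

theorem chi_or (u : G) : ((chi u : ℤˣ) : ℤ) = 1 ∨ ((chi u : ℤˣ) : ℤ) = -1 := by
  rw [chi_word]; exact chL_or _

theorem S_mul (w u v : G) : S (w * u) (w * v) = ((chi w : ℤˣ) : ℤ) * S u v := by
  unfold S
  have : (w * u)⁻¹ * (w * v) = u⁻¹ * v := by group
  rw [this, _root_.map_mul, Units.val_mul]
  ring

theorem S_anti (u v : G) : S v u = - S u v := by
  unfold S
  have e : v⁻¹ * u = (u⁻¹ * v)⁻¹ := by group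
  rw [e, toWord_inv]
  cases hw : (u⁻¹ * v).toWord with
  | nil =>
    simp [sig]
  | cons x l =>
    have hr : IsReduced (x :: l) := by rw [← hw]; exact isReduced_toWord
    rw [sig_invRev x l hr, ← hw, ← chi_word, _root_.map_mul, Units.val_mul]
    have h1 : ((chi u⁻¹ : ℤˣ) : ℤ) = ((chi u : ℤˣ) : ℤ) := by
      rw [_root_.map_inv, Int.units_inv_eq_self]
    rw [h1]
    rcases chi_or u with hu | hu <;> rcases chi_or v with hv | hv <;> rw [hu, hv] <;> ring

theorem S_odd {u v : G} (h : u ≠ v) : S u v % 2 = 1 := by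
  unfold S
  cases hw : (u⁻¹ * v).toWord with
  | nil =>
    rw [toWord_eq_nil_iff] at hw
    exact absurd (inv_mul_eq_one.1 hw) h
  | cons x l =>
    have := sig_odd x l
    rcases chi_or u with hu | hu <;> rw [hu] <;> omega

/-- the main computation -/
theorem acyc1 (v w : G) (h1 : dG v w < dG 1 v + dG 1 w) (h2 : dG 1 w < dG 1 v + dG v w)
    (h3 : dG 1 v < dG 1 w + dG v w) :
    ¬ (0 < S 1 v ∧ 0 < S v w ∧ 0 < S w 1) ∧ ¬ (S 1 v < 0 ∧ S v w < 0 ∧ S w 1 < 0) := by
  obtain ⟨m, A, B, hv, hw, hab⟩ := prefix_dec v.toWord w.toWord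
  have hvr : IsReduced (m ++ A) := by rw [← hv]; exact isReduced_toWord
  have hwr : IsReduced (m ++ B) := by rw [← hw]; exact isReduced_toWord
  have hvm : v = mk (m ++ A) := by rw [← hv, mk_toWord]
  have hwm : w = mk (m ++ B) := by rw [← hw, mk_toWord]
  have hvw : (v⁻¹ * w).toWord = invRev A ++ B := by
    rw [hvm, hwm]; exact toWord_glue hvr hwr hab
  have d1 : dG 1 v = m.length + A.length := by
    unfold dG; rw [inv_one, one_mul, hv, List.length_append]
  have d2 : dG 1 w = m.length + B.length := by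
    unfold dG; rw [inv_one, one_mul, hw, List.length_append]
  have d3 : dG v w = A.length + B.length := by
    unfold dG; rw [hvw, List.length_append, invRev_length]
  rw [d1, d2, d3] at h1 h2 h3
  have hm : m ≠ [] := by rintro rfl; simp at h1
  have hA : A ≠ [] := by rintro rfl; simp at h2
  have hB : B ≠ [] := by rintro rfl; simp at h3
  obtain ⟨m', z, rfl⟩ : ∃ m' z, m = m' ++ [z] := ⟨m.dropLast, m.getLast hm, (List.dropLast_append_getLast hm).symm⟩
  obtain ⟨a, A', rfl⟩ := List.exists_cons_of_ne_nil hA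
  obtain ⟨b, B', rfl⟩ := List.exists_cons_of_ne_nil hB
  have hne : a ≠ b := hab a A' b B' rfl rfl
  have hza : iv z ≠ a := by
    have : IsReduced ([z] ++ (a :: A')) := red_right (P := m') (by rw [← List.append_assoc]; exact hvr)
    have this' : IsReduced (z :: a :: A') := this
    rw [isReduced_cons_cons] at this'
    intro h'
    have h1 : z.1 = a.1 := by rw [← h']; rfl
    have h2 := this'.1 h1
    rw [← h'] at h2
    simp [iv] at h2
  have hzb : iv z ≠ b := by
    have : IsReduced ([z] ++ (b :: B')) := red_right (P := m') (by rw [← List.append_assoc]; exact hwr)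
    have this' : IsReduced (z :: b :: B') := this
    rw [isReduced_cons_cons] at this'
    intro h'
    have h1 : z.1 = b.1 := by rw [← h']; rfl
    have h2 := this'.1 h1
    rw [← h'] at h2
    simp [iv] at h2
  have hAr : IsReduced (a :: A') := red_right hvr
  have s1 : S 1 v = sig (m' ++ [z]) + chL (m' ++ [z]) * (tau (iv z) a + sig (a :: A')) := by
    unfold S
    rw [inv_one, one_mul, hv, _root_.map_one, Units.val_one, one_mul, sig_cat]
  have s2 : S w 1 = - (sig (m' ++ [z]) + chL (m' ++ [z]) * (tau (iv z) b + sig (b :: B'))) := by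
    rw [S_anti]
    unfold S
    rw [inv_one, one_mul, hw, _root_.map_one, Units.val_one, one_mul, sig_cat]
  have s3 : S v w = chL (m' ++ [z]) * (- sig (a :: A') + tau a b + sig (b :: B')) := by
    unfold S
    have e : invRev (a :: A') = invRev A' ++ [iv a] := by rw [invRev_cons]; rfl
    have hchL : chL (invRev (a :: A')) = chL (a :: A') := chL_invRev _
    rw [hvw, chi_word, hv, e, sig_cat, ← e, sig_invRev a A' hAr, hchL, iv_iv, chL_append]
    rcases chL_or (a :: A') with h' | h' <;> rw [h'] <;> ring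
  have o1 := S_odd (u := 1) (v := v) (by
    intro h
    rw [← h] at hv
    simp at hv)
  have o2 := S_odd (u := v) (v := w) (by
    intro h
    rw [h, inv_mul_cancel] at hvw
    simp at hvw)
  have o3 := S_odd (u := w) (v := 1) (by
    intro h
    rw [h] at hw
    simp at hw)
  have ht := tau_trans hza hne hzb
  rw [s1] at o1 ⊢
  rw [s2] at o3 ⊢
  rw [s3] at o2 ⊢
  have t1 := tau_or (iv z) a
  have t2 := tau_or (iv z) b
  have t3 := tau_or a b
  rcases chL_or (m' ++ [z]) with h' | h' <;> rw [h'] at o1 o2 o3 ⊢ <;> omega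

theorem t_FS : S_FS := by
  refine ⟨fun u v => 0 < S u v, ⟨?_, ?_⟩, ?_, ?_⟩
  · intro u v huv
    show 0 < S u v ↔ ¬ 0 < S v u
    have h1 := S_odd huv
    rw [S_anti u v]
    omega
  · intro u v w h1 h2 h3 h4 h5 h6
    have e1 : S u v = ((chi u : ℤˣ) : ℤ) * S 1 (u⁻¹ * v) := by
      rw [← S_mul]; congr 1 <;> group
    have e2 : S v w = ((chi u : ℤˣ) : ℤ) * S (u⁻¹ * v) (u⁻¹ * w) := by
      rw [← S_mul]; congr 1 <;> group
    have e3 : S w u = ((chi u : ℤˣ) : ℤ) * S (u⁻¹ * w) 1 := by
      rw [← S_mul]; congr 1 <;> group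
    have inv : ∀ x y : G, dG (u⁻¹ * x) (u⁻¹ * y) = dG x y := by
      intro x y
      unfold dG
      congr 2
      group
    have sym : ∀ x y : G, dG x y = dG y x := by
      intro x y
      unfold dG
      have : x⁻¹ * y = (y⁻¹ * x)⁻¹ := by group
      rw [this, toWord_inv, invRev_length]
    have f1 : dG 1 (u⁻¹ * v) = dG u v := by
      rw [← inv u v]; congr 1; group
    have f2 : dG 1 (u⁻¹ * w) = dG u w := by
      rw [← inv u w]; congr 1; group
    have f3 : dG (u⁻¹ * v) (u⁻¹ * w) = dG v w := inv v w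
    have key := acyc1 (u⁻¹ * v) (u⁻¹ * w)
      (by rw [f1, f2, f3, sym u v]; exact h2)
      (by rw [f1, f2, f3]; exact h3)
      (by rw [f1, f2, f3, sym v w]; exact h1)
    rw [e1] at h4
    rw [e2] at h5
    rw [e3] at h6
    rcases chi_or u with hu | hu <;> rw [hu] at h4 h5 h6
    · apply key.1
      refine ⟨?_, ?_, ?_⟩ <;> linarith
    · apply key.2
      refine ⟨?_, ?_, ?_⟩ <;> linarith
  · intro w u v hw
    show 0 < S (w * u) (w * v) ↔ 0 < S u v
    rw [S_mul, hw]
    simp
  · intro w u v hw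
    show 0 < S (w * u) (w * v) ↔ 0 < S v u
    rw [S_mul, hw, S_anti u v]
    simp

end Pool.Agent.Y429.MO.FS
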